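import Mathlib
import Pool.Agent.D0H89.OF.Stm3

/-! # OF: BLK, UNQ -/

set_option autoImplicit false

open Polynomial

namespace Pool.Agent.D0H87.OF

open Pool.Agent.D0H89.OF

section

variable {ι K : Type} [Fintype ι] [DecidableEq ι] [Field K]

/-- `exp n = 1 + n c` with a unit `c` which commutes with everything that commutes with `n` -/
theorem exK_one [CharZero K] (n : Matrix ι ι K) (m : ℕ) (hn : n ^ (m + 1) = 0) :
    ∃ c : Matrix ι ι K, exK n m 1 = 1 + n * c ∧ IsUnit c ∧ ∀ X, Commute X n → Commute X c := by
  set c : Matrix ι ι K := ∑ j ∈ Finset.range (m + 1), ((j + 1).factorial : K)⁻¹ • n ^ j with hc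
  have h1 : exK n m 1 = 1 + n * c := by
    have h2 : n * c = ∑ j ∈ Finset.range (m + 1), ((j + 1).factorial : K)⁻¹ • n ^ (j + 1) := by
      rw [hc, Finset.mul_sum]
      refine Finset.sum_congr rfl fun j _ => ?_
      rw [Matrix.mul_smul, ← pow_succ']
    have h3 : ∑ j ∈ Finset.range (m + 1 + 1), ((j.factorial : K)⁻¹) • n ^ j = 1 + n * c := by
      rw [Finset.sum_range_succ', h2]
      simp [add_comm]
    rw [Finset.sum_range_succ, hn, smul_zero, add_zero] at h3
    rw [exK, ← h3]
    refine Finset.sum_congr rfl fun j _ => ?_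
    rw [one_pow, one_mul]
  have h4 : ∀ X, Commute X n → Commute X c := by
    intro X hX
    rw [hc]
    exact Commute.sum_right _ _ _ fun j _ => (hX.pow_right j).smul_right _
  refine ⟨c, h1, ?_, h4⟩
  set e : Matrix ι ι K := ∑ j ∈ Finset.range m, ((j + 1 + 1).factorial : K)⁻¹ • n ^ j with he
  have h5 : c = 1 + n * e := by
    rw [hc, Finset.sum_range_succ', he, Finset.mul_sum]
    have : ∀ j ∈ Finset.range m, n * (((j + 1 + 1).factorial : K)⁻¹ • n ^ j) =
        ((j + 1 + 1).factorial : K)⁻¹ • n ^ (j + 1) := fun j _ => by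
      rw [Matrix.mul_smul, ← pow_succ']
    rw [Finset.sum_congr rfl this]
    simp [add_comm]
  have h6 : Commute n e := by
    rw [he]
    exact Commute.sum_right _ _ _ fun j _ => ((Commute.refl n).pow_right j).smul_right _
  have h7 : IsNilpotent (n * e) := ⟨m + 1, by rw [h6.mul_pow, hn, Matrix.zero_mul]⟩
  rw [h5]
  exact h7.isUnit_one_add

theorem mulVec_zero_of_unit {B : Matrix ι ι K} (hB : IsUnit B) {v : ι → K}
    (h : B.mulVec v = 0) : v = 0 := by
  obtain ⟨u, rfl⟩ := hB
  have := congrArg (fun w => (↑u⁻¹ : Matrix ι ι K).mulVec w) h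
  simp only [Matrix.mulVec_mulVec, Matrix.mulVec_zero, Units.inv_mul, Matrix.one_mulVec] at this
  exact this

/-- diagonalization -/
theorem exists_diag [IsAlgClosed K] {s : Matrix ι ι K} (hs : IsSS s) :
    ∃ (P P' : Matrix ι ι K) (μ : ι → K), P * P' = 1 ∧ P' * P = 1 ∧
      P' * s * P = Matrix.diagonal μ := by
  obtain ⟨b, μ, hb⟩ := exists_eigenbasis (Matrix.toLin' s) hs
  let P : Matrix ι ι K := (Pi.basisFun K ι).toMatrix b
  let P' : Matrix ι ι K := b.toMatrix (Pi.basisFun K ι)
  have h1 : P * P' = 1 := (Pi.basisFun K ι).toMatrix_mul_toMatrix_flip b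
  have h2 : P' * P = 1 := b.toMatrix_mul_toMatrix_flip (Pi.basisFun K ι)
  have hPe : ∀ i, P.mulVec (Pi.single i 1) = b i := by
    intro i
    rw [Matrix.mulVec_single_one]
    funext j
    simp [P, Module.Basis.toMatrix_apply]
  have hP'b : ∀ i, P'.mulVec (b i) = Pi.single i 1 := by
    intro i
    rw [← hPe, Matrix.mulVec_mulVec, h2, Matrix.one_mulVec]
  have hS0b : ∀ i, s.mulVec (b i) = μ i • b i := by
    intro i
    rw [← hb i, Matrix.toLin'_apply]
  refine ⟨P, P', μ, h1, h2, ?_⟩
  ext j i
  have h3 : (P' * s * P).mulVec (Pi.single i 1) = μ i • Pi.single i 1 := by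
    rw [← Matrix.mulVec_mulVec, ← Matrix.mulVec_mulVec, hPe, hS0b, Matrix.mulVec_smul, hP'b]
  have h4 := congrFun h3 j
  rw [Matrix.mulVec_single_one] at h4
  have h5 : (P' * s * P) j i = (μ i • (Pi.single i 1 : ι → K)) j := h4
  rw [h5, Matrix.diagonal_apply]
  by_cases hij : j = i
  · subst hij; simp
  · rw [if_neg hij]
    simp [Pi.single_apply, hij]

/-- the projector onto the eigenspace -/
theorem exists_proj [IsAlgClosed K] {s : Matrix ι ι K} (hs : IsSS s) (z : K) :
    ∃ e : Matrix ι ι K, (∀ X, Commute s X → Commute e X) ∧ e * e = e ∧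
      s * e = z • e ∧ IsUnit (s - Matrix.scalar ι z + e) := by
  classical
  obtain ⟨P, P', μ, h1, h2, h3⟩ := exists_diag hs
  have hs' : s = P * Matrix.diagonal μ * P' := by
    rw [← h3]
    calc s = (P * P') * s * (P * P') := by rw [h1, Matrix.one_mul, Matrix.mul_one]
      _ = P * (P' * s * P) * P' := by simp only [Matrix.mul_assoc]
  set D : Matrix ι ι K := Matrix.diagonal fun i => if μ i = z then 1 else 0 with hD
  have hconj : ∀ A B : Matrix ι ι K, (P * A * P') * (P * B * P') = P * (A * B) * P' := by
    intro A B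
    calc (P * A * P') * (P * B * P') = P * A * (P' * P) * B * P' := by
          simp only [Matrix.mul_assoc]
      _ = P * (A * B) * P' := by rw [h2, Matrix.mul_one]; simp only [Matrix.mul_assoc]
  refine ⟨P * D * P', ?_, ?_, ?_, ?_⟩
  · intro X hX
    set Y : Matrix ι ι K := P' * X * P with hY
    have hX' : X = P * Y * P' := by
      rw [hY]
      calc X = (P * P') * X * (P * P') := by rw [h1, Matrix.one_mul, Matrix.mul_one]
        _ = P * (P' * X * P) * P' := by simp only [Matrix.mul_assoc]
    have hYc : Matrix.diagonal μ * Y = Y * Matrix.diagonal μ := by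
      have h4 : s * X = X * s := hX
      have h5 : P' * (s * X) * P = P' * (X * s) * P := by rw [h4]
      rw [hs', hX', hconj, hconj] at h5
      have h6 : ∀ A : Matrix ι ι K, P' * (P * A * P') * P = A := fun A => by
        calc P' * (P * A * P') * P = (P' * P) * A * (P' * P) := by simp only [Matrix.mul_assoc]
          _ = A := by rw [h2, Matrix.one_mul, Matrix.mul_one]
      rwa [h6, h6] at h5
    have hDY : D * Y = Y * D := by
      ext i j
      rw [hD, Matrix.diagonal_mul, Matrix.mul_diagonal]
      have h4 := congrFun (congrFun hYc i) j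
      rw [Matrix.diagonal_mul, Matrix.mul_diagonal] at h4
      by_cases hij : Y i j = 0
      · rw [hij, mul_zero, zero_mul]
      · have h5 : μ i = μ j := by
          have : (μ i - μ j) * Y i j = 0 := by linear_combination h4
          exact sub_eq_zero.1 ((mul_eq_zero.1 this).resolve_right hij)
        rw [h5, mul_comm]
    change (P * D * P') * X = X * (P * D * P')
    rw [hX', hconj, hconj, hDY]
  · rw [hconj]
    congr 2
    rw [hD, Matrix.diagonal_mul_diagonal]
    congr 1
    funext i
    split_ifs <;> simp
  · rw [hs', hconj, ← Matrix.smul_mul, ← Matrix.mul_smul]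
    congr 2
    rw [hD, Matrix.diagonal_mul_diagonal, ← Matrix.diagonal_smul]
    congr 1
    funext i
    by_cases h : μ i = z
    · simp [h]
    · simp [h]
  · have h4 : s - Matrix.scalar ι z + P * D * P' =
        P * Matrix.diagonal (fun i => μ i - z + if μ i = z then 1 else 0) * P' := by
      have h5 : Matrix.diagonal (fun i => μ i - z + if μ i = z then 1 else 0) =
          Matrix.diagonal μ - Matrix.scalar ι z + D := by
        rw [hD]
        ext i j
        by_cases hij : i = j
        · subst hij
          simp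
        · simp [hij]
      have h6 : P * Matrix.scalar ι z * P' = Matrix.scalar ι z := by
        have h7 : Matrix.scalar ι z = z • (1 : Matrix ι ι K) := by
          ext i j
          by_cases hij : i = j
          · subst hij
            simp
          · simp [hij]
        rw [h7, Matrix.mul_smul, Matrix.smul_mul, Matrix.mul_one, h1]
      rw [h5, Matrix.mul_add, Matrix.add_mul, Matrix.mul_sub, Matrix.sub_mul, ← hs', h6]
    rw [h4]
    have h5 : IsUnit P := IsUnit.of_mul_eq_one _ h1
    have h6 : IsUnit P' := IsUnit.of_mul_eq_one _ h2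
    refine (h5.mul ?_).mul h6
    rw [Matrix.isUnit_iff_isUnit_det, Matrix.det_diagonal, isUnit_iff_ne_zero]
    refine Finset.prod_ne_zero_iff.2 fun i _ => ?_
    split_ifs with h
    · rw [h, sub_self, zero_add]
      exact one_ne_zero
    · rw [add_zero]
      exact sub_ne_zero.2 h

end

theorem scalar_commute {ι K : Type} [Fintype ι] [DecidableEq ι] [Field K] (z : K)
    (X : Matrix ι ι K) : Commute (Matrix.scalar ι z) X :=
  Matrix.scalar_commute z (fun _ => Commute.all _ _) X

theorem t_BLK : S_BLK := by
  intro ι K _ _ _ _ _ s s' ν M m hss' hs hsν hν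
  classical
  obtain ⟨c, hc, hcu, hcX⟩ := exK_one ν M hν
  have hs's : s' * s = 1 := mul_eq_one_comm.1 hss'
  have hsu : IsUnit s := IsUnit.of_mul_eq_one _ hss'
  have hsc : Commute s c := hcX s hsν
  have hνc : Commute ν c := hcX ν (Commute.refl ν)
  set A : Matrix ι ι K := s * exK ν M 1 with hA
  -- on the eigenspace
  have key : ∀ (z : K) (e : Matrix ι ι K), s * e = z • e → Commute e ν → Commute e c →
      Commute e s → ∀ j : ℕ, (A - Matrix.scalar ι z) ^ j * e = z ^ j • (c ^ j * ν ^ j * e) := by
    intro z e he heν hec hes j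
    have hz : Matrix.scalar ι z * e = z • e := by
      ext a b
      simp [Matrix.scalar_apply, Matrix.diagonal_mul]
    have h1 : (A - Matrix.scalar ι z) * e = z • (c * ν * e) := by
      rw [Matrix.sub_mul, hz, hA, hc]
      calc s * (1 + ν * c) * e - z • e = (1 + ν * c) * (s * e) - z • e := by
            have : Commute s (1 + ν * c) := (Commute.one_right s).add_right (hsν.mul_right hsc)
            rw [this.eq, Matrix.mul_assoc]
        _ = z • (c * ν * e) := by
            rw [he, Matrix.mul_smul, Matrix.add_mul, Matrix.one_mul, smul_add, add_sub_cancel_left,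
              hνc.eq]
    have hN : Commute (A - Matrix.scalar ι z) (c * ν) := by
      have h2 : Commute A (c * ν) := by
        rw [hA, hc]
        refine Commute.mul_left (hsc.mul_right hsν) ?_
        refine Commute.add_left (Commute.one_left _) ?_
        rw [hνc.eq]
        exact Commute.refl _
      exact h2.sub_left (scalar_commute z _)
    induction j with
    | zero => simp
    | succ j ih =>
      rw [pow_succ', Matrix.mul_assoc, ih, Matrix.mul_smul]
      have hcν : c ^ j * ν ^ j = (c * ν) ^ j := (hνc.symm.mul_pow j).symm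
      have hcν' : c ^ (j + 1) * ν ^ (j + 1) = (c * ν) ^ (j + 1) := (hνc.symm.mul_pow _).symm
      rw [hcν, hcν', ← Matrix.mul_assoc, (hN.pow_right j).eq, Matrix.mul_assoc, h1,
        Matrix.mul_smul, smul_smul, ← Matrix.mul_assoc, pow_succ z, pow_succ (c * ν)]
  constructor
  · intro hB
    obtain ⟨P, P', μ, h1, h2, h3⟩ := exists_diag hs
    -- `ν ^ m e = 0` for the projectors
    have h4 : ∀ z : K, z ≠ 0 → ∀ e : Matrix ι ι K, s * e = z • e → Commute e ν → Commute e c →
        Commute e s → ν ^ m * e = 0 := by
      intro z hz e he heν hec hes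
      have hdown : ∀ j (v : ι → K), ((A - Matrix.scalar ι z) ^ (m + j)).mulVec v = 0 →
          ((A - Matrix.scalar ι z) ^ m).mulVec v = 0 := by
        intro j
        induction j with
        | zero => intro v hv; exact hv
        | succ j ih =>
          intro v hv
          apply ih
          rw [pow_add, ← Matrix.mulVec_mulVec]
          apply hB
          rw [Matrix.mulVec_mulVec, ← pow_add]
          rw [show m + 1 + j = m + (j + 1) by ring]
          exact hv
      have h5 : ∀ v : ι → K, (ν ^ m * e).mulVec v = 0 := by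
        intro v
        have h6 : ((A - Matrix.scalar ι z) ^ (m + (M + 1))).mulVec (e.mulVec v) = 0 := by
          rw [Matrix.mulVec_mulVec, key z e he heν hec hes, pow_add ν, hν]
          simp
        have h7 := hdown _ _ h6
        rw [Matrix.mulVec_mulVec, key z e he heν hec hes] at h7
        rw [Matrix.smul_mulVec, smul_eq_zero_iff_right (pow_ne_zero m hz), Matrix.mul_assoc,
          ← Matrix.mulVec_mulVec] at h7
        exact mulVec_zero_of_unit (hcu.pow m) h7
      ext a b
      have := congrFun (h5 (Pi.single b 1)) a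
      rw [Matrix.mulVec_single_one] at this
      exact this
    -- the columns of `P`
    have h5 : ∀ v : ι → K, ∀ z : K, s.mulVec v = z • v → z ≠ 0 → (ν ^ m).mulVec v = 0 := by
      intro v z hv hz
      obtain ⟨e, he1, he2, he3, he4⟩ := exists_proj hs z
      have h6 := h4 z hz e he3 (he1 ν hsν) (he1 c hsc) (he1 s (Commute.refl s))
      have h7 : e.mulVec v = v := by
        have h8 : (s - Matrix.scalar ι z + e).mulVec (v - e.mulVec v) = 0 := by
          have h9 : (s - Matrix.scalar ι z + e) * (1 - e) = s - Matrix.scalar ι z -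
              (s - Matrix.scalar ι z) * e := by
            rw [Matrix.mul_sub, Matrix.mul_one, Matrix.add_mul, he2]
            abel
          have h10 : v - e.mulVec v = (1 - e).mulVec v := by
            rw [Matrix.sub_mulVec, Matrix.one_mulVec]
          have h11 : (s - Matrix.scalar ι z) * e = 0 := by
            rw [Matrix.sub_mul, he3]
            ext a b
            simp [Matrix.scalar_apply, Matrix.diagonal_mul]
          rw [h10, Matrix.mulVec_mulVec, h9, h11, sub_zero, Matrix.sub_mulVec, hv]
          funext a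
          simp [Matrix.scalar_apply, Matrix.mulVec_diagonal]
        have := mulVec_zero_of_unit he4 h8
        exact (sub_eq_zero.1 this).symm
      rw [← h7, Matrix.mulVec_mulVec, h6, Matrix.zero_mulVec]
    have hsP : s * P = P * Matrix.diagonal μ := by
      rw [← h3]
      calc s * P = (P * P') * s * P := by rw [h1, Matrix.one_mul]
        _ = P * (P' * s * P) := by simp only [Matrix.mul_assoc]
    have h6 : ν ^ m * P = 0 := by
      ext a i
      have hcol : s.mulVec (fun k => P k i) = μ i • fun k => P k i := by
        funext k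
        have := congrFun (congrFun hsP k) i
        rw [Matrix.mul_diagonal] at this
        rw [Pi.smul_apply, smul_eq_mul, mul_comm, ← this]
        rfl
      have hμ : μ i ≠ 0 := by
        intro h0
        rw [h0, zero_smul] at hcol
        have h7 := mulVec_zero_of_unit hsu hcol
        have h8 : (P' * P) i i = 0 := by
          rw [Matrix.mul_apply]
          refine Finset.sum_eq_zero fun k _ => ?_
          rw [show P k i = 0 from congrFun h7 k, mul_zero]
        rw [h2, Matrix.one_apply_eq] at h8
        exact one_ne_zero h8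
      exact congrFun (h5 _ _ hcol hμ) a
    calc ν ^ m = ν ^ m * (P * P') := by rw [h1, Matrix.mul_one]
      _ = 0 := by rw [← Matrix.mul_assoc, h6, Matrix.zero_mul]
  · intro hm z v hv
    obtain ⟨e, he1, he2, he3, he4⟩ := exists_proj hs z
    have heν := he1 ν hsν
    have hec := he1 c hsc
    have hes := he1 s (Commute.refl s)
    have heA : Commute e A := by
      rw [hA, hc]
      exact hes.mul_right ((Commute.one_right e).add_right (heν.mul_right hec))
    have heN : Commute e (A - Matrix.scalar ι z) := heA.sub_right (scalar_commute z e).symm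
    -- the other components vanish
    set B : Matrix ι ι K := (A - Matrix.scalar ι z) * (1 - e) + e with hB
    have hBu : IsUnit B := by
      have h1 : B = (s - Matrix.scalar ι z + e) + s * ν * c * (1 - e) := by
        have h11 : (s - Matrix.scalar ι z) * e = 0 := by
          rw [Matrix.sub_mul, he3]
          ext a b
          simp [Matrix.scalar_apply, Matrix.diagonal_mul]
        have h12 : A = s + s * ν * c := by
          rw [hA, hc, Matrix.mul_add, Matrix.mul_one, Matrix.mul_assoc]
        rw [hB, h12]
        have h13 : s + s * ν * c - Matrix.scalar ι z = (s - Matrix.scalar ι z) + s * ν * c := by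
          abel
        rw [h13, Matrix.add_mul, Matrix.mul_sub (s - Matrix.scalar ι z), h11, Matrix.mul_one,
          sub_zero]
        abel
      rw [h1]
      have hcomm : Commute (s * ν * c * (1 - e)) (s - Matrix.scalar ι z + e) := by
        have c1 : ∀ X : Matrix ι ι K, Commute X s → Commute X e →
            Commute X (s - Matrix.scalar ι z + e) := fun X hXs hXe =>
          (hXs.sub_right (scalar_commute z X).symm).add_right hXe
        refine Commute.mul_left (Commute.mul_left (Commute.mul_left ?_ ?_) ?_) ?_
        · exact c1 s (Commute.refl s) hes.symm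
        · exact c1 ν hsν.symm heν.symm
        · exact c1 c hsc.symm hec.symm
        · refine c1 (1 - e) ?_ ?_
          · exact (Commute.one_left s).sub_left hes
          · exact (Commute.one_left e).sub_left (Commute.refl e)
      have hnil : IsNilpotent (s * ν * c * (1 - e)) := by
        have h2 : s * ν * c * (1 - e) = ν * (s * c * (1 - e)) := by
          rw [hsν.eq]
          simp only [Matrix.mul_assoc]
        have h3 : Commute ν (s * c * (1 - e)) :=
          (hsν.symm.mul_right hνc).mul_right ((Commute.one_right ν).sub_right heν.symm)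
        rw [h2]
        exact ⟨M + 1, by rw [h3.mul_pow, hν, Matrix.zero_mul]⟩
      exact hnil.isUnit_add_left_of_commute he4 hcomm
    have h1 : (1 - e) * e = 0 := by rw [Matrix.sub_mul, Matrix.one_mul, he2, sub_self]
    have hidem : (1 - e) * (1 - e) = 1 - e := by
      rw [Matrix.mul_sub, Matrix.mul_one, h1, sub_zero]
    have h2 : ∀ j : ℕ, B ^ j * (1 - e) = (A - Matrix.scalar ι z) ^ j * (1 - e) := by
      intro j
      induction j with
      | zero => simp
      | succ j ih =>
        have h3 : B * (1 - e) = (A - Matrix.scalar ι z) * (1 - e) := by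
          rw [hB, Matrix.add_mul, Matrix.mul_assoc, hidem, Matrix.mul_sub e, he2, Matrix.mul_one,
            sub_self, add_zero]
        have h4 : Commute (1 - e) (A - Matrix.scalar ι z) := (Commute.one_left _).sub_left heN
        rw [pow_succ, pow_succ, Matrix.mul_assoc, h3, h4.symm.eq, ← Matrix.mul_assoc, ih,
          Matrix.mul_assoc, Matrix.mul_assoc, h4.eq]
    have h3 : (1 - e).mulVec v = 0 := by
      have h4 : Commute (1 - e) ((A - Matrix.scalar ι z) ^ (m + 1)) :=
        ((Commute.one_left _).sub_left heN).pow_right _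
      have h5 : (B ^ (m + 1)).mulVec ((1 - e).mulVec v) = 0 := by
        rw [Matrix.mulVec_mulVec, h2, ← h4.eq, ← Matrix.mulVec_mulVec, hv, Matrix.mulVec_zero]
      exact mulVec_zero_of_unit (hBu.pow _) h5
    have h4 : v = e.mulVec v := by
      rw [Matrix.sub_mulVec, Matrix.one_mulVec] at h3
      exact sub_eq_zero.1 h3
    rw [h4, Matrix.mulVec_mulVec, key z e he3 heν hec hes, hm]
    simp

theorem t_UNQ : S_UNQ := by
  intro ι K _ _ _ _ _ s₁ s₁' s₂ s₂' n₁ n₂ m h1 h2 hs1 hs2 hc1 hc2 hn1 hn2 h
  classical
  obtain ⟨c₁, hcc1, -, hX1⟩ := exK_one n₁ m hn1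
  obtain ⟨c₂, hcc2, -, hX2⟩ := exK_one n₂ m hn2
  -- the additive Jordan decomposition
  have hadd : ∀ {s n c : Matrix ι ι K}, Commute s n → Commute s c → Commute n c →
      n ^ (m + 1) = 0 → IsNilpotent (s * n * c) ∧ Commute (s * n * c) s := by
    intro s n c hsn hsc hnc hn
    constructor
    · have h3 : s * n * c = n * (s * c) := by rw [hsn.eq, Matrix.mul_assoc]
      have h4 : Commute n (s * c) := hsn.symm.mul_right hnc
      rw [h3]
      exact ⟨m + 1, by rw [h4.mul_pow, hn, Matrix.zero_mul]⟩
    · exact ((Commute.refl s).mul_left hsn.symm).mul_left hsc.symm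
  obtain ⟨ha1, hb1⟩ := hadd hc1 (hX1 s₁ hc1) (hX1 n₁ (Commute.refl _)) hn1
  obtain ⟨ha2, hb2⟩ := hadd hc2 (hX2 s₂ hc2) (hX2 n₂ (Commute.refl _)) hn2
  let φ : Matrix ι ι K ≃ₐ[K] Module.End K (ι → K) := Matrix.toLinAlgEquiv'
  have hφ : ∀ A : Matrix ι ι K, φ A = Matrix.toLin' A := fun A => rfl
  have h3 : φ (s₁ * n₁ * c₁) + φ s₁ = φ (s₂ * n₂ * c₂) + φ s₂ := by
    rw [← map_add, ← map_add]
    congr 1
    rw [hcc1, hcc2, Matrix.mul_add, Matrix.mul_add, Matrix.mul_one, Matrix.mul_one,
      ← Matrix.mul_assoc, ← Matrix.mul_assoc] at h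
    rw [add_comm, h, add_comm]
  have h4 := Module.End.isNilpotent_isSemisimple_unique (ha1.map φ) (by rw [hφ]; exact hs1)
    (ha2.map φ) (by rw [hφ]; exact hs2) (hb1.map φ) (hb2.map φ) h3
  have h5 : s₁ = s₂ := φ.injective h4.2
  subst h5
  have h6 : exK n₁ m 1 = exK n₂ m 1 := by
    have h7 : s₁' * s₁ = 1 := mul_eq_one_comm.1 h1
    calc exK n₁ m 1 = s₁' * (s₁ * exK n₁ m 1) := by rw [← Matrix.mul_assoc, h7, Matrix.one_mul]
      _ = exK n₂ m 1 := by rw [h, ← Matrix.mul_assoc, h7, Matrix.one_mul]
  have h7 : ∀ k : ℕ, exK n₁ m (k : K) = exK n₂ m (k : K) := by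
    intro k
    rw [← exK_pow n₁ m hn1, ← exK_pow n₂ m hn2, h6]
  rcases Nat.eq_zero_or_pos m with hm | hm
  · subst hm
    rw [zero_add, pow_one] at hn1 hn2
    rw [hn1, hn2]
  · ext a b
    set p : K[X] := ∑ j ∈ Finset.range (m + 1),
      C ((j.factorial : K)⁻¹ * ((n₁ ^ j) a b - (n₂ ^ j) a b)) * X ^ j with hp
    have h8 : p = 0 := by
      apply poly_zero_of_nat
      intro k
      have h9 := congrFun (congrFun (h7 k) a) b
      rw [exK, exK, Matrix.sum_apply, Matrix.sum_apply] at h9
      rw [hp, Polynomial.eval_finsetSum]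
      have h10 : ∑ j ∈ Finset.range (m + 1),
          (((k : K) ^ j * (j.factorial : K)⁻¹) • n₁ ^ j) a b -
          ∑ j ∈ Finset.range (m + 1),
          (((k : K) ^ j * (j.factorial : K)⁻¹) • n₂ ^ j) a b = 0 := by rw [h9, sub_self]
      rw [← Finset.sum_sub_distrib] at h10
      rw [← h10]
      refine Finset.sum_congr rfl fun j _ => ?_
      rw [eval_mul, eval_C, eval_pow, eval_X, Matrix.smul_apply, Matrix.smul_apply, smul_eq_mul,
        smul_eq_mul]
      ring
    have h9 : p.coeff 1 = 0 := by rw [h8, coeff_zero]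
    rw [hp, finsetSum_coeff, Finset.sum_eq_single 1] at h9
    · rw [coeff_C_mul, coeff_X_pow, if_pos rfl, mul_one, pow_one, pow_one, Nat.factorial_one,
        Nat.cast_one, inv_one, one_mul, sub_eq_zero] at h9
      exact h9
    · intro j _ hj
      rw [coeff_C_mul, coeff_X_pow, if_neg (fun h => hj h.symm), mul_zero]
    · intro h10
      exact absurd (Finset.mem_range.2 (by omega)) h10

end Pool.Agent.D0H87.OF
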